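import Pool.Agent.H772R3.Specht3

set_option autoImplicit false

/-!
Over every field of characteristic zero there is a nonmatrix locally admissible variety of
noncommutative Jordan algebras which is not finitely based, hence not Spechtian.

The variety: `S` consists of the identities common to algebras `Alg F N` (`N = 0, 1, 2, ...`) and of
the monomials `W n = ((((x0 x1)(x2 x3)) z_1) ... z_{n+1}) (x4 x5)`. The algebra `Alg F N` is
anticommutative, every product of at least `g + 7` elements among `g` given ones vanishes in it,
and it satisfies `W n` exactly for `n ≠ N`.
-/

namespace Pool.Agent.Results.MP_b8847a_al.NotSpechtian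

open Pool.Agent.H772R3.Specht hiding S

universe u

theorem result (F : Type u) [Field F] [CharZero F] :
    ∃ S : Set (NAPoly F), NoncommutativeJordanVariety F S ∧ LocallyAdmissible F S ∧
      Nonmatrix F S ∧ ¬ FinitelyBased F S :=
  main

end Pool.Agent.Results.MP_b8847a_al.NotSpechtian
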